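import Mathlib
import Pool.Agent.H990R2.CTFam

open Finset Filter Topology

namespace Pool.Agent.Results.MP_ec2323_pr.TypicalNoCutoff

noncomputable section

/-- Generator of the continuous-time simple random walk on `G`: at rate `1` the walk jumps to a
uniformly chosen neighbour of its current vertex. -/
def gen {V : Type} [Fintype V] [DecidableEq V] (G : SimpleGraph V) [DecidableRel G.Adj] :
    Matrix V V ℝ :=
  fun x y => (if G.Adj x y then 1 / (G.degree x : ℝ) else 0) - (if x = y then 1 else 0)

/-- Law of `X_t` under `P_x`: the row `x` of the matrix exponential of `t` times the generator. -/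
def law {V : Type} [Fintype V] [DecidableEq V] (G : SimpleGraph V) [DecidableRel G.Adj] (t : ℝ)
    (x y : V) : ℝ := NormedSpace.exp (t • gen G) x y

/-- The stationary distribution `π(x) = deg(x) / (2|E|)`. -/
def stat {V : Type} [Fintype V] [DecidableEq V] (G : SimpleGraph V) [DecidableRel G.Adj]
    (x : V) : ℝ := (G.degree x : ℝ) / (2 * (G.edgeFinset.card : ℝ))

/-- `d_x(t) = ‖P_x(X_t ∈ ·) - π‖_TV`. -/
def d {V : Type} [Fintype V] [DecidableEq V] (G : SimpleGraph V) [DecidableRel G.Adj]
    (x : V) (t : ℝ) : ℝ := (1 / 2 : ℝ) * ∑ y, |law G t x y - stat G y|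

/-- `τ_x = inf {t ≥ 0 : d_x(t) ≤ 1/4}`. -/
def tau {V : Type} [Fintype V] [DecidableEq V] (G : SimpleGraph V) [DecidableRel G.Adj]
    (x : V) : ℝ := sInf {t : ℝ | 0 ≤ t ∧ d G x t ≤ 1 / 4}

open Classical in
/-- `π`-probability of the set of vertices with the property `A`. -/
def prob {V : Type} [Fintype V] [DecidableEq V] (G : SimpleGraph V) [DecidableRel G.Adj]
    (A : V → Prop) : ℝ := ∑ x, if A x then stat G x else 0

/-- `m` is a median of `τ_x` when `x` is drawn from `π`. -/
def IsMedian {V : Type} [Fintype V] [DecidableEq V] (G : SimpleGraph V) [DecidableRel G.Adj]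
    (m : ℝ) : Prop := 1 / 2 ≤ prob G (fun x => tau G x ≤ m) ∧ 1 / 2 ≤ prob G (fun x => m ≤ tau G x)

/-- The relaxation time: the inverse of the spectral gap of the generator (the smallest nonzero
eigenvalue of minus the generator). -/
def trel {V : Type} [Fintype V] [DecidableEq V] (G : SimpleGraph V) [DecidableRel G.Adj] : ℝ :=
  1 / sInf (spectrum ℝ (-gen G) \ {0})

/-- Total variation cutoff from a stationary (typical) start, at the medians `τ n`. -/
def HasTypicalCutoff (V : ℕ → Type) [∀ n, Fintype (V n)] [∀ n, DecidableEq (V n)]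
    (G : ∀ n, SimpleGraph (V n)) [∀ n, DecidableRel (G n).Adj] (τ : ℕ → ℝ) : Prop :=
  ∀ ε : ℝ, 0 < ε → ε < 1 →
    Tendsto (fun n => prob (G n) (fun x => 1 - ε < d (G n) x ((1 - ε) * τ n))) atTop (𝓝 1) ∧
    Tendsto (fun n => prob (G n) (fun x => d (G n) x ((1 + ε) * τ n) < ε)) atTop (𝓝 1)

section

variable {G : Type} [AddCommGroup G] [Fintype G] [DecidableEq G] {S : Finset G} {T : ℕ}

theorem gen_eq (h0 : (0 : G) ∉ S) (hn : ∀ s ∈ S, -s ∈ S) :
    gen (Helper394.cay S h0 hn) = H990R2.CT.srw S h0 hn - 1 := by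
  ext x y
  rw [Matrix.sub_apply, Matrix.one_apply]
  rfl

theorem stat_eq (h : Helper394.Bad S T) (x : G) :
    stat (Helper394.cay S h.zero h.neg) x = 1 / (Fintype.card G : ℝ) := by
  have h1 := SimpleGraph.sum_degrees_eq_twice_card_edges (Helper394.cay S h.zero h.neg)
  simp only [Helper394.cay_degree, Finset.sum_const, Finset.card_univ, smul_eq_mul] at h1
  have h2 : (2 * ((Helper394.cay S h.zero h.neg).edgeFinset.card : ℝ)) =
      Fintype.card G * S.card := by exact_mod_cast h1.symm
  have hG : (0 : ℝ) < Fintype.card G := by exact_mod_cast Fintype.card_pos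
  have hc : (0 : ℝ) < S.card := by exact_mod_cast h.nonempty.card_pos
  rw [stat, h2, Helper394.cay_degree]
  field_simp

theorem d_eq (h : Helper394.Bad S T) (x : G) (t : ℝ) :
    d (Helper394.cay S h.zero h.neg) x t =
      (1 / 2 : ℝ) * ∑ y, |H990R2.CT.H (H990R2.CT.srw S h.zero h.neg) t x y -
        1 / (Fintype.card G : ℝ)| := by
  simp only [d, law, gen_eq, stat_eq h]
  rfl

theorem tau_eq (h : Helper394.Bad S T) (x : G) :
    tau (Helper394.cay S h.zero h.neg) x = H990R2.CT.tau0 (H990R2.CT.srw S h.zero h.neg) := by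
  simp only [tau, H990R2.CT.tau0, d_eq h]
  simp only [H990R2.CT.tv_translate (H990R2.CT.srw_mulVec S h.zero h.neg) _ _ x]

theorem prob_const (h : Helper394.Bad S T) (A : G → Prop) (p : Prop) [Decidable p]
    (hA : ∀ x, A x ↔ p) : prob (Helper394.cay S h.zero h.neg) A = if p then 1 else 0 := by
  have hG : (0 : ℝ) < Fintype.card G := by exact_mod_cast Fintype.card_pos
  simp only [prob, stat_eq h, hA]
  split_ifs
  · simp only [Finset.sum_const, Finset.card_univ, nsmul_eq_mul]
    field_simp
  · simp

end

/-- There are finite connected simple graphs `G_n` with `|V(G_n)| → ∞` which satisfy the product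
condition `τ(n)/τ₂(n) → ∞` (the median `τ(n)` being unique) but whose continuous-time simple random
walks have no total variation cutoff from a stationary start. -/
theorem result :
    ∃ (V : ℕ → Type) (_ : ∀ n, Fintype (V n)) (_ : ∀ n, DecidableEq (V n))
      (G : ∀ n, SimpleGraph (V n)) (_ : ∀ n, DecidableRel (G n).Adj) (τ : ℕ → ℝ),
      Tendsto (fun n => Fintype.card (V n)) atTop atTop ∧
      (∀ n, (G n).Connected) ∧
      (∀ n m, IsMedian (G n) m ↔ m = τ n) ∧
      Tendsto (fun n => τ n / trel (G n)) atTop atTop ∧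
      ¬ HasTypicalCutoff V G τ := by
  choose N hN S hTN hS using fun n : ℕ => Helper394.exists_bad (n + 64) (by omega)
  let G : ∀ n, SimpleGraph (ZMod (N n)) := fun n => Helper394.cay (S n) (hS n).zero (hS n).neg
  let P : ∀ n, Matrix (ZMod (N n)) (ZMod (N n)) ℝ := fun n =>
    H990R2.CT.srw (S n) (hS n).zero (hS n).neg
  have hP : ∀ n, ∀ f : ZMod (N n) → ℝ, (P n).mulVec f = Helper394.U (S n) f :=
    fun n f => H990R2.CT.srw_mulVec (S n) _ _ f
  have hτ : ∀ n : ℕ, ((n : ℝ) + 64) / 2 ≤ H990R2.CT.tau0 (P n) := by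
    intro n
    have := H990R2.CT.tau0_ge (hS n) (by omega) (hP n)
    push_cast at this
    exact this
  refine ⟨fun n => ZMod (N n), fun n => inferInstance, fun n => inferInstance, G,
    fun n => inferInstance, fun n => H990R2.CT.tau0 (P n), ?_, ?_, ?_, ?_, ?_⟩
  · refine tendsto_atTop_mono (fun n => ?_) tendsto_id
    rw [ZMod.card]
    have := hTN n
    simp only [id]
    omega
  · exact fun n => Helper394.cay_connected (hS n)
  · intro n m
    classical
    rw [IsMedian, prob_const (hS n) _ (H990R2.CT.tau0 (P n) ≤ m)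
        (fun x => by rw [tau_eq (hS n)]),
      prob_const (hS n) _ (m ≤ H990R2.CT.tau0 (P n)) (fun x => by rw [tau_eq (hS n)])]
    constructor
    · rintro ⟨h1, h2⟩
      have h3 : H990R2.CT.tau0 (P n) ≤ m := by
        by_contra hcon
        rw [if_neg hcon] at h1
        norm_num at h1
      have h4 : m ≤ H990R2.CT.tau0 (P n) := by
        by_contra hcon
        rw [if_neg hcon] at h2
        norm_num at h2
      exact le_antisymm h4 h3
    · rintro rfl
      rw [if_pos le_rfl]
      norm_num
  · have h5 : Tendsto (fun n : ℕ => (n : ℝ) / 8) atTop atTop :=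
      tendsto_natCast_atTop_atTop.atTop_div_const (by norm_num)
    refine tendsto_atTop_mono (fun n => ?_) h5
    have hge : 1 / 4 ≤ sInf (spectrum ℝ (-gen (G n)) \ {0}) := by
      have e : gen (G n) = P n - 1 := gen_eq _ _
      rw [e]
      obtain ⟨r, hr, hr0⟩ := H990R2.CT.specR_nonempty (hS n) (hP n)
      apply le_csInf
      · exact ⟨r, hr, hr0⟩
      · rintro b ⟨hb, hb0⟩
        exact H990R2.CT.specR (hS n) (hP n) b hb hb0
    have h6 : 0 < trel (G n) := one_div_pos.mpr (by linarith)
    have h7 : trel (G n) ≤ 4 := by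
      rw [trel, div_le_iff₀ (by linarith)]
      linarith
    have h8 := hτ n
    have hn : (0 : ℝ) ≤ n := Nat.cast_nonneg n
    rw [div_le_div_iff₀ (by norm_num) h6]
    nlinarith
  · intro hcut
    obtain ⟨h1, _⟩ := hcut (1 / 2000) (by norm_num) (by norm_num)
    have h2 : ∀ n, prob (G n) (fun x => 1 - 1 / 2000 <
        d (G n) x ((1 - 1 / 2000) * H990R2.CT.tau0 (P n))) = 0 := by
      intro n
      have h3 := prob_const (hS n) (fun x => 1 - 1 / 2000 <
        d (G n) x ((1 - 1 / 2000) * H990R2.CT.tau0 (P n))) False (fun x => by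
          rw [iff_false, not_lt]
          have h4 := H990R2.CT.tv_upper (hS n) (by omega) (hP n)
            (t := (1 - 1 / 2000) * H990R2.CT.tau0 (P n)) (by
              have := hτ n
              have hn : (0 : ℝ) ≤ n := Nat.cast_nonneg n
              push_cast
              linarith) x
          rw [d_eq (hS n)]
          exact h4)
      rw [if_neg not_false] at h3
      exact h3
    rw [tendsto_congr h2] at h1
    have := tendsto_nhds_unique h1 tendsto_const_nhds
    norm_num at this

end

end Pool.Agent.Results.MP_ec2323_pr.TypicalNoCutoff
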